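import Pool.Agent.H458.AG.Def

set_option autoImplicit false
set_option linter.all false

open Polynomial NumberField IsDedekindDomain
open scoped Classical

/-!
Polynomials in a box with given residues, general `g` (adapted from `H975/AU458/FIB.lean`).
-/

namespace Pool.Agent.H348.AG458

open Pool.Agent.H458.AG
open Pool.Agent.N783.PF (Bd Cg sp rd Ht)
open Pool.Agent.N352.PF (nv dg Bx Bz S_BX)
open Pool.Agent.N352.PJ (dis D2 dd pol)
open Pool.Agent.N951.PF (crt bz_coeff eq_pol pol_inj)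

/-- **FIB** -/
theorem fib (h : Pool.Agent.N352.PF.S_BX) : Pool.Agent.H458.AG.S_FIB := by
  intro F _ _ g hg
  obtain ⟨C, hC, hBX⟩ := h F g
  refine ⟨C, hC, fun S r B hS hB => ?_⟩
  obtain ⟨Q, hQ⟩ : ∃ Q : ℕ, Q = ∏ q ∈ S, q := ⟨_, rfl⟩
  rw [← hQ] at hB ⊢
  have hQ0 : 0 < Q := by
    rw [hQ]
    exact Finset.prod_pos fun q hq => (hS q hq).pos
  have hp : ∀ q ∈ S, q.Prime ∧ ¬ q ∣ 1 := fun q hq =>
    ⟨hS q hq, fun hd => (hS q hq).one_lt.ne' (Nat.dvd_one.1 hd)⟩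
  have hrep : ∀ (q : ℕ) (j : Fin (2 * g)), ∃ a : 𝓞 F, Ideal.Quotient.mk (sp F q) a = r q j :=
    fun q j => Ideal.Quotient.mk_surjective (r q j)
  choose rep hrep using hrep
  have hx : ∀ j : Fin (2 * g), ∃ x : 𝓞 F, ∀ q ∈ S, (q : 𝓞 F) ∣ x - rep q j := by
    intro j
    obtain ⟨x, -, hx⟩ := crt 1 S hp (0 : 𝓞 F) (fun q => rep q j)
    exact ⟨x, hx⟩
  choose A hA using hx
  obtain ⟨hfin, -, hcard⟩ := hBX B Q A hQ0 hB
  have hsub : {f : (𝓞 F)[X] | Ht g B f ∧ ∀ q ∈ S, mkr g q f = r q} ⊆ pol '' (Bx g B Q A) := by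
    rintro f ⟨hf, hres⟩
    refine ⟨fun j => f.coeff j, ⟨bz_coeff hf, fun j => ?_⟩, (eq_pol hf).symm⟩
    rw [hQ, Nat.cast_prod]
    apply Finset.prod_dvd_of_coprime
    · intro p hp' q hq' hpq
      have h1 : Nat.Coprime p q := (Nat.coprime_primes (hS p hp') (hS q hq')).2 hpq
      exact h1.cast
    · intro q hq
      have h1 : Ideal.Quotient.mk (sp F q) (f.coeff j) = Ideal.Quotient.mk (sp F q) (rep q j) := by
        rw [hrep, ← hres q hq]
        rfl
      rw [Ideal.Quotient.mk_eq_mk_iff_sub_mem, sp, Ideal.mem_span_singleton] at h1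
      have h2 : f.coeff j - A j = (f.coeff j - rep q j) - (A j - rep q j) := by ring
      rw [h2]
      exact dvd_sub h1 (hA j q hq)
  have hle : {f : (𝓞 F)[X] | Ht g B f ∧ ∀ q ∈ S, mkr g q f = r q}.ncard ≤
      (Bx g B Q A).ncard := by
    rw [← Set.ncard_image_of_injective _ pol_inj]
    exact Set.ncard_le_ncard hsub (hfin.image _)
  exact ⟨(hfin.image _).subset hsub, (Nat.mul_le_mul_right _ hle).trans hcard⟩

end Pool.Agent.H348.AG458
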